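import Mathlib
import Pool.Agent.H223.EM.Defs
import Pool.Agent.Helper112.MultLS
import Pool.Agent.H510R2.Div
import Pool.Agent.H341R2.EM_T8a

set_option autoImplicit false

/-! Eighth moment project, task T8: the large sieve for fractions `x j n⁻¹ / q`. -/

namespace Pool.Agent.H997R2.EM8

open Finset Complex Pool.Agent.H306R2 Pool.Agent.H306R2.SM Pool.Agent.H223.EM

noncomputable section

lemma le_card_mul_totient (n : ℕ) (hn : 0 < n) : n ≤ n.divisors.card * n.totient := by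
  conv_lhs => rw [← Nat.sum_totient n]
  rw [← smul_eq_mul, ← Finset.sum_const]
  exact Finset.sum_le_sum fun d hd => Nat.le_of_dvd (Nat.totient_pos.2 hn)
    (Nat.totient_dvd_of_dvd (Nat.dvd_of_mem_divisors hd))

lemma sum_div_rearr (Q : ℕ) (H : ℕ → ℕ → ℝ) :
    ∑ q ∈ Icc 1 Q, ∑ g ∈ q.divisors, H g (q / g) = ∑ g ∈ Icc 1 Q, ∑ r ∈ Icc 1 (Q / g), H g r := by
  rw [Finset.sum_sigma', Finset.sum_sigma']
  refine Finset.sum_bij' (fun x _ => ⟨x.2, x.1 / x.2⟩) (fun y _ => ⟨y.1 * y.2, y.1⟩) ?_ ?_ ?_ ?_ ?_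
  · rintro ⟨q, g⟩ h
    simp only [mem_sigma, mem_Icc, Nat.mem_divisors] at h ⊢
    obtain ⟨⟨h1, h2⟩, h3, _⟩ := h
    have hg : 0 < g := Nat.pos_of_dvd_of_pos h3 h1
    have hgq : g ≤ q := Nat.le_of_dvd h1 h3
    exact ⟨⟨hg, hgq.trans h2⟩, Nat.div_pos hgq hg, Nat.div_le_div_right h2⟩
  · rintro ⟨g, r⟩ h
    simp only [mem_sigma, mem_Icc, Nat.mem_divisors] at h ⊢
    obtain ⟨⟨h1, h2⟩, h3, h4⟩ := h
    have h5 : g * r ≤ Q := by
      rw [mul_comm]
      exact (Nat.le_div_iff_mul_le h1).1 h4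
    have h6 : 0 < g * r := Nat.mul_pos h1 h3
    exact ⟨⟨h6, h5⟩, Dvd.intro r rfl, h6.ne'⟩
  · rintro ⟨q, g⟩ h
    simp only [mem_sigma, mem_Icc, Nat.mem_divisors] at h
    simp only [Nat.mul_div_cancel' h.2.1]
  · rintro ⟨g, r⟩ h
    simp only [mem_sigma, mem_Icc] at h
    have : g * r / g = r := Nat.mul_div_cancel_left r h.1.1
    simp only [this]
  · rintro ⟨q, g⟩ h
    rfl

lemma group_gcd (J q : ℕ) (hq : 0 < q) (F : ℕ → ℂ) :
    ∑ j ∈ Icc 1 J, F j = ∑ g ∈ q.divisors,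
      ∑ j ∈ (Icc 1 (J / g)).filter (fun j => Nat.Coprime j (q / g)), F (g * j) := by
  have h1 : ∀ j ∈ Icc 1 J, Nat.gcd j q ∈ q.divisors := fun j _ =>
    Nat.mem_divisors.2 ⟨Nat.gcd_dvd_right _ _, hq.ne'⟩
  rw [← Finset.sum_fiberwise_of_maps_to h1]
  refine Finset.sum_congr rfl fun g hg => ?_
  have hgq := Nat.dvd_of_mem_divisors hg
  have hg0 : 0 < g := Nat.pos_of_mem_divisors hg
  symm
  refine Finset.sum_bij' (fun j _ => g * j) (fun j _ => j / g) ?_ ?_ ?_ ?_ ?_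
  · intro j hj
    simp only [mem_filter, mem_Icc] at hj ⊢
    refine ⟨⟨Nat.mul_pos hg0 hj.1.1, ?_⟩, ?_⟩
    · rw [mul_comm]
      exact (Nat.le_div_iff_mul_le hg0).1 hj.1.2
    · obtain ⟨r, rfl⟩ := hgq
      rw [Nat.mul_div_cancel_left r hg0] at hj
      rw [Nat.gcd_mul_left, hj.2, mul_one]
  · intro j hj
    simp only [mem_filter, mem_Icc] at hj ⊢
    obtain ⟨⟨h2, h3⟩, h4⟩ := hj
    have h5 : g ∣ j := h4 ▸ Nat.gcd_dvd_left j q
    refine ⟨⟨Nat.div_pos (Nat.le_of_dvd h2 h5) hg0, Nat.div_le_div_right h3⟩, ?_⟩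
    have h6 := Nat.coprime_div_gcd_div_gcd (m := j) (n := q) (by rw [h4]; exact hg0)
    rw [h4] at h6
    exact h6
  · intro j _
    exact Nat.mul_div_cancel_left j hg0
  · intro j hj
    simp only [mem_filter, mem_Icc] at hj
    have h5 : g ∣ j := hj.2 ▸ Nat.gcd_dvd_left j q
    exact Nat.mul_div_cancel' h5
  · intro j _
    rfl

lemma sum_range_one (r : ℕ) [NeZero r] (G : ZMod r → ℝ) :
    ∑ x ∈ range r, G (x : ZMod r) = ∑ y : ZMod r, G y := by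
  refine Finset.sum_bij' (fun x _ => (x : ZMod r)) (fun y _ => y.val) ?_ ?_ ?_ ?_ ?_
  · intro x _
    exact mem_univ _
  · intro y _
    exact mem_range.2 (ZMod.val_lt y)
  · intro x hx
    exact ZMod.val_cast_of_lt (mem_range.1 hx)
  · intro y _
    exact ZMod.natCast_zmod_val y
  · intro x _
    rfl

lemma sum_range_zmod (g r : ℕ) [NeZero r] (G : ZMod r → ℝ) :
    ∑ x ∈ range (g * r), G (x : ZMod r) = g * ∑ y : ZMod r, G y := by
  induction g with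
  | zero => simp
  | succ g ih =>
    rw [Nat.succ_mul, Finset.sum_range_add, ih]
    have h1 : ∑ x ∈ range r, G ((g * r + x : ℕ) : ZMod r) = ∑ y : ZMod r, G y := by
      rw [← sum_range_one]
      refine Finset.sum_congr rfl fun x _ => ?_
      congr 1
      push_cast
      simp
    rw [h1]
    push_cast
    ring

lemma sum_units_eq (r : ℕ) [NeZero r] (G : ZMod r → ℝ) :
    ∑ y : ZMod r, (open Classical in if IsUnit y then G y else 0) = ∑ u : (ZMod r)ˣ, G u := by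
  classical
  rw [← Finset.sum_filter]
  symm
  refine Finset.sum_bij (fun u _ => (u : ZMod r)) ?_ ?_ ?_ ?_
  · intro u _
    simp
  · intro a _ b _ h
    exact Units.ext h
  · intro y hy
    rw [mem_filter] at hy
    exact ⟨hy.2.unit, mem_univ _, rfl⟩
  · intro u _
    rfl

lemma sum_cop_le (g r : ℕ) [NeZero r] (G : ZMod r → ℝ) (hG : ∀ y, 0 ≤ G y) :
    ∑ x ∈ (range (g * r)).filter (fun x => Nat.Coprime x (g * r)), G (x : ZMod r) ≤
      g * ∑ u : (ZMod r)ˣ, G u := by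
  classical
  rw [← sum_units_eq, ← sum_range_zmod]
  rw [Finset.sum_filter]
  refine Finset.sum_le_sum fun x _ => ?_
  split_ifs with h1 h2 h2
  · exact le_rfl
  · exact absurd ((ZMod.isUnit_iff_coprime x r).2 (Nat.Coprime.coprime_mul_left_right h1)) h2
  · exact hG _
  · exact le_rfl

/-- the sums for a fixed modulus -/
def Sg (r : ℕ) (s t : Finset ℕ) (A B : ℕ → ℂ) [NeZero r] (y : ZMod r) : ℂ :=
  ∑ n ∈ s, ∑ j ∈ t, A n * B j * ZMod.stdAddChar (y * ((j : ZMod r) * (n : ZMod r)⁻¹))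

lemma sum_Sg (r : ℕ) [NeZero r] (s t : Finset ℕ) (hs : ∀ n ∈ s, Nat.Coprime n r)
    (ht : ∀ j ∈ t, Nat.Coprime j r) (A B : ℕ → ℂ) (χ : DirichletCharacter ℂ r) :
    ∑ y : ZMod r, χ⁻¹ y * Sg r s t A B y =
      gaussSum χ⁻¹ (ZMod.stdAddChar : AddChar (ZMod r) ℂ) *
        ((∑ n ∈ s, A n * (starRingEnd ℂ) (χ (n : ZMod r))) * ∑ j ∈ t, B j * χ (j : ZMod r)) := by
  have hR : gaussSum χ⁻¹ (ZMod.stdAddChar : AddChar (ZMod r) ℂ) *
        ((∑ n ∈ s, A n * (starRingEnd ℂ) (χ (n : ZMod r))) * ∑ j ∈ t, B j * χ (j : ZMod r)) =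
      ∑ n ∈ s, ∑ j ∈ t, gaussSum χ⁻¹ (ZMod.stdAddChar : AddChar (ZMod r) ℂ) *
        (A n * (starRingEnd ℂ) (χ (n : ZMod r)) * (B j * χ (j : ZMod r))) := by
    rw [Finset.sum_mul_sum, Finset.mul_sum]
    exact Finset.sum_congr rfl fun n _ => Finset.mul_sum _ _ _
  rw [hR]
  unfold Sg
  simp_rw [Finset.mul_sum]
  rw [Finset.sum_comm]
  refine Finset.sum_congr rfl fun n hn => ?_
  rw [Finset.sum_comm]
  refine Finset.sum_congr rfl fun j hj => ?_
  set un := ZMod.unitOfCoprime n (hs n hn) with hun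
  set uj := ZMod.unitOfCoprime j (ht j hj) with huj
  have e1 : (n : ZMod r) = un := (ZMod.coe_unitOfCoprime n (hs n hn)).symm
  have e2 : (j : ZMod r) = uj := (ZMod.coe_unitOfCoprime j (ht j hj)).symm
  have e3 : (j : ZMod r) * (n : ZMod r)⁻¹ = ((uj * un⁻¹ : (ZMod r)ˣ) : ZMod r) := by
    rw [e1, e2, ZMod.inv_coe_unit, Units.val_mul]
  rw [e3]
  have h1 := gaussSum_mulShift χ⁻¹ (ZMod.stdAddChar : AddChar (ZMod r) ℂ) (uj * un⁻¹)
  have h2 : χ ((uj * un⁻¹ : (ZMod r)ˣ) : ZMod r) * χ⁻¹ ((uj * un⁻¹ : (ZMod r)ˣ) : ZMod r) = 1 := by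
    rw [← MulChar.mul_apply, mul_inv_cancel, MulChar.one_apply_coe]
  have h3 : gaussSum χ⁻¹ ((ZMod.stdAddChar : AddChar (ZMod r) ℂ).mulShift
      ((uj * un⁻¹ : (ZMod r)ˣ) : ZMod r)) = χ ((uj * un⁻¹ : (ZMod r)ˣ) : ZMod r) *
        gaussSum χ⁻¹ (ZMod.stdAddChar : AddChar (ZMod r) ℂ) := by
    rw [← h1, ← mul_assoc, h2, one_mul]
  have h4 : χ ((uj * un⁻¹ : (ZMod r)ˣ) : ZMod r) = χ (j : ZMod r) * (starRingEnd ℂ) (χ (n : ZMod r)) := by
    rw [Units.val_mul, map_mul, ← e2]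
    congr 1
    rw [← RCLike.star_def, MulChar.star_apply', MulChar.inv_apply, e1, Ring.inverse_unit]
  calc ∑ y : ZMod r, χ⁻¹ y * (A n * B j * ZMod.stdAddChar (y * ((uj * un⁻¹ : (ZMod r)ˣ) : ZMod r)))
      = A n * B j * gaussSum χ⁻¹ ((ZMod.stdAddChar : AddChar (ZMod r) ℂ).mulShift
        ((uj * un⁻¹ : (ZMod r)ˣ) : ZMod r)) := by
        rw [gaussSum, Finset.mul_sum]
        refine Finset.sum_congr rfl fun y _ => ?_
        rw [AddChar.mulShift_apply, mul_comm y]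
        ring
    _ = _ := by
        rw [h3, h4]
        ring

lemma sum_Sg_sq (r : ℕ) [NeZero r] (s t : Finset ℕ) (hs : ∀ n ∈ s, Nat.Coprime n r)
    (ht : ∀ j ∈ t, Nat.Coprime j r) (A B : ℕ → ℂ) :
    (r.totient : ℝ) * ∑ u : (ZMod r)ˣ, ‖Sg r s t A B u‖ ^ 2 =
      ∑ χ : DirichletCharacter ℂ r, ‖gaussSum χ⁻¹ (ZMod.stdAddChar : AddChar (ZMod r) ℂ)‖ ^ 2 *
        (‖∑ n ∈ s, (starRingEnd ℂ) (A n) * χ (n : ZMod r)‖ ^ 2 *
          ‖∑ j ∈ t, B j * χ (j : ZMod r)‖ ^ 2) := by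
  rw [← Pool.Agent.Helper112.MLS.sum_all]
  refine Finset.sum_congr rfl fun χ _ => ?_
  rw [sum_Sg r s t hs ht, norm_mul, norm_mul, mul_pow, mul_pow]
  congr 3
  rw [← Complex.norm_conj]
  congr 1
  rw [map_sum]
  refine Finset.sum_congr rfl fun n _ => ?_
  rw [map_mul, Complex.conj_conj]

open Classical in
/-- sums over all characters in terms of primitive characters -/
lemma sum_char_le (r : ℕ) (hr : 0 < r) (F : DirichletCharacter ℂ r → ℝ) (hF : ∀ χ, 0 ≤ F χ)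
    (F' : ∀ f : ℕ, DirichletCharacter ℂ f → ℝ)
    (hFF : ∀ (f : ℕ) (h : f ∣ r) (ψ : DirichletCharacter ℂ f), ψ.IsPrimitive →
      F (DirichletCharacter.changeLevel h ψ) ≤ F' f ψ) :
    ∑ χ : DirichletCharacter ℂ r, F χ ≤ ∑ f ∈ r.divisors,
      ∑ ψ ∈ (univ : Finset (DirichletCharacter ℂ f)).filter (fun ψ => ψ.IsPrimitive), F' f ψ := by
  have : NeZero r := ⟨hr.ne'⟩
  have h1 : ∀ χ ∈ (univ : Finset (DirichletCharacter ℂ r)), χ.conductor ∈ r.divisors := fun χ _ =>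
    Nat.mem_divisors.2 ⟨χ.conductor_dvd_level, hr.ne'⟩
  rw [← Finset.sum_fiberwise_of_maps_to h1]
  refine Finset.sum_le_sum fun f hf => ?_
  have hfr := Nat.dvd_of_mem_divisors hf
  have h2 : (univ : Finset (DirichletCharacter ℂ r)).filter (fun χ => χ.conductor = f) ⊆
      ((univ : Finset (DirichletCharacter ℂ f)).filter (fun ψ => ψ.IsPrimitive)).image
        (DirichletCharacter.changeLevel hfr) := by
    intro χ hχ
    rw [mem_filter] at hχ
    obtain ⟨_, h3⟩ := hχ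
    subst h3
    rw [mem_image]
    exact ⟨χ.primitiveCharacter, mem_filter.2 ⟨mem_univ _, χ.primitiveCharacter_isPrimitive⟩,
      χ.changeLevel_primitiveCharacter⟩
  refine (Finset.sum_le_sum_of_subset_of_nonneg h2 fun χ _ _ => hF χ).trans ?_
  rw [Finset.sum_image fun a _ b _ h => DirichletCharacter.changeLevel_injective hfr h]
  refine Finset.sum_le_sum fun ψ hψ => ?_
  exact hFF f hfr ψ (mem_filter.1 hψ).2

/-- multiplicative convolution on a box -/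
def gam (N M : ℕ) (a b : ℕ → ℂ) (m : ℕ) : ℂ :=
  ∑ p ∈ (Icc 1 N ×ˢ Icc 1 M).filter (fun p => p.1 * p.2 = m), a p.1 * b p.2

lemma sum_gam (N M f : ℕ) (a b : ℕ → ℂ) (ψ : DirichletCharacter ℂ f) :
    ∑ m ∈ Icc 1 (N * M), gam N M a b m * ψ (m : ZMod f) =
      (∑ n ∈ Icc 1 N, a n * ψ (n : ZMod f)) * ∑ j ∈ Icc 1 M, b j * ψ (j : ZMod f) := by
  rw [Finset.sum_mul_sum, ← Finset.sum_product']
  have h1 : ∀ p ∈ Icc 1 N ×ˢ Icc 1 M, p.1 * p.2 ∈ Icc 1 (N * M) := by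
    intro p hp
    rw [mem_product, mem_Icc, mem_Icc] at hp
    rw [mem_Icc]
    exact ⟨Nat.mul_pos hp.1.1 hp.2.1, Nat.mul_le_mul hp.1.2 hp.2.2⟩
  rw [← Finset.sum_fiberwise_of_maps_to h1]
  refine Finset.sum_congr rfl fun m _ => ?_
  unfold gam
  rw [Finset.sum_mul]
  refine Finset.sum_congr rfl fun p hp => ?_
  rw [mem_filter] at hp
  rw [← hp.2]
  push_cast
  rw [map_mul]
  ring

lemma norm_gam_le (N M g : ℕ) (hg : 1 ≤ g) (a b : ℕ → ℂ) (ha : ∀ n, 1 ≤ n → ‖a n‖ ≤ 1 / Real.sqrt n)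
    (hb : ∀ j, 1 ≤ j → ‖b j‖ ≤ 1 / Real.sqrt ((g * j : ℕ) : ℝ)) (m : ℕ) (hm : 1 ≤ m) :
    ‖gam N M a b m‖ ^ 2 ≤ (m.divisors.card : ℝ) ^ 2 / (g * m) := by
  have h1 : ‖gam N M a b m‖ ≤ (m.divisors.card : ℝ) / Real.sqrt ((g : ℝ) * m) := by
    unfold gam
    refine (norm_sum_le _ _).trans ?_
    have h2 : ∀ p ∈ (Icc 1 N ×ˢ Icc 1 M).filter (fun p => p.1 * p.2 = m),
        ‖a p.1 * b p.2‖ ≤ 1 / Real.sqrt ((g : ℝ) * m) := by
      intro p hp
      rw [mem_filter, mem_product, mem_Icc, mem_Icc] at hp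
      rw [norm_mul]
      refine (mul_le_mul (ha p.1 hp.1.1.1) (hb p.2 hp.1.2.1) (norm_nonneg _) (by positivity)).trans ?_
      rw [one_div_mul_one_div, ← Real.sqrt_mul (by positivity), ← hp.2]
      apply le_of_eq
      congr 2
      push_cast
      ring
    refine (Finset.sum_le_card_nsmul _ _ _ h2).trans ?_
    rw [nsmul_eq_mul, mul_one_div]
    gcongr
    refine Finset.card_le_card_of_injOn (fun p => p.1) ?_ ?_
    · intro p hp
      rw [Finset.mem_coe, mem_filter] at hp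
      exact Finset.mem_coe.2 (Nat.mem_divisors.2 ⟨Dvd.intro _ hp.2, by omega⟩)
    · intro p hp p' hp' h
      rw [Finset.mem_coe, mem_filter, mem_product, mem_Icc] at hp hp'
      have h' : p.1 = p'.1 := h
      have h3 : p.1 * p.2 = p.1 * p'.2 := by
        rw [hp.2, h', hp'.2]
      exact Prod.ext h' (Nat.eq_of_mul_eq_mul_left hp.1.1.1 h3)
  calc ‖gam N M a b m‖ ^ 2 ≤ ((m.divisors.card : ℝ) / Real.sqrt ((g : ℝ) * m)) ^ 2 := by gcongr
    _ = _ := by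
      rw [div_pow, Real.sq_sqrt (by positivity)]

/-- the coefficients -/
def ac (α : ℕ → ℂ) (k n : ℕ) : ℂ := if Nat.Coprime n k then (starRingEnd ℂ) (α n) else 0

def bc (β : ℕ → ℂ) (g e j : ℕ) : ℂ := if Nat.Coprime j e then β (g * j) else 0

open Classical in
def BB (N J : ℕ) (α β : ℕ → ℂ) (f g e : ℕ) : ℝ :=
  ∑ ψ ∈ (univ : Finset (DirichletCharacter ℂ f)).filter (fun ψ => ψ.IsPrimitive),
    ‖∑ m ∈ Icc 1 (N * (J / g)), gam N (J / g) (ac α (g * e)) (bc β g e) m * ψ (m : ZMod f)‖ ^ 2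

lemma BB_nonneg (N J : ℕ) (α β : ℕ → ℂ) (f g e : ℕ) : 0 ≤ BB N J α β f g e :=
  Finset.sum_nonneg fun _ _ => by positivity

/-- T8a as a hypothesis -/
def GaussLe : Prop := ∀ (r : ℕ) [NeZero r] (χ : DirichletCharacter ℂ r),
    ‖gaussSum χ (ZMod.stdAddChar : AddChar (ZMod r) ℂ)‖ ^ 2 ≤ (χ.conductor : ℝ)

lemma char_zero (f : ℕ) (ψ : DirichletCharacter ℂ f) (n : ℕ) (h : ¬ Nat.Coprime n f) :
    ψ (n : ZMod f) = 0 :=
  ψ.map_nonunit fun hu => h ((ZMod.isUnit_iff_coprime n f).1 hu)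

lemma char_level (f r : ℕ) (h : f ∣ r) (ψ : DirichletCharacter ℂ f) (n : ℕ) (hn : Nat.Coprime n r) :
    (DirichletCharacter.changeLevel h ψ) (n : ZMod r) = ψ (n : ZMod f) := by
  have h1 := DirichletCharacter.changeLevel_eq_cast_of_dvd' ψ h (a := (n : ℤ))
    (Nat.isCoprime_iff_coprime.2 hn)
  simpa using h1

lemma units_le (hG : GaussLe) (N J : ℕ) (α β : ℕ → ℂ) (g r : ℕ) [NeZero r] :
    (r.totient : ℝ) * ∑ u : (ZMod r)ˣ,
      ‖Sg r ((Icc 1 N).filter (fun n => Nat.Coprime n (g * r)))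
        ((Icc 1 (J / g)).filter (fun j => Nat.Coprime j r)) α (fun j => β (g * j)) u‖ ^ 2 ≤
      ∑ f ∈ r.divisors, (f : ℝ) * BB N J α β f g (r / f) := by
  have hr : 0 < r := NeZero.pos r
  rw [sum_Sg_sq]
  · unfold BB
    simp_rw [Finset.mul_sum]
    refine sum_char_le r hr _ (fun χ => by positivity) (fun f ψ => (f : ℝ) *
      ‖∑ m ∈ Icc 1 (N * (J / g)), gam N (J / g) (ac α (g * (r / f))) (bc β g (r / f)) m *
        ψ (m : ZMod f)‖ ^ 2) ?_
    intro f hf ψ hψ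
    have hcond : ((DirichletCharacter.changeLevel hf ψ)⁻¹).conductor = f := by
      rw [DirichletCharacter.conductor_inv, DirichletCharacter.conductor_changeLevel]
      exact hψ
    have h1 := hG r (DirichletCharacter.changeLevel hf ψ)⁻¹
    rw [hcond] at h1
    have hrf : f * (r / f) = r := Nat.mul_div_cancel' hf
    have h2 : ∑ n ∈ (Icc 1 N).filter (fun n => Nat.Coprime n (g * r)),
        (starRingEnd ℂ) (α n) * (DirichletCharacter.changeLevel hf ψ) (n : ZMod r) =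
        ∑ n ∈ Icc 1 N, ac α (g * (r / f)) n * ψ (n : ZMod f) := by
      rw [Finset.sum_filter]
      refine Finset.sum_congr rfl fun n _ => ?_
      unfold ac
      split_ifs with h3 h4 h4
      · rw [char_level f r hf ψ n (Nat.Coprime.coprime_mul_left_right h3)]
      · exfalso
        apply h4
        refine Nat.Coprime.coprime_dvd_right ?_ h3
        exact Nat.mul_dvd_mul_left g (Nat.div_dvd_of_dvd hf)
      · have h5 : ¬ Nat.Coprime n f := by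
          intro h5
          apply h3
          have h6 : g * r = f * (g * (r / f)) := by
            conv_lhs => rw [← hrf]
            ring
          rw [h6]
          exact Nat.Coprime.mul_right h5 h4
        rw [char_zero f ψ n h5, mul_zero]
      · rw [zero_mul]
    have h3 : ∑ j ∈ (Icc 1 (J / g)).filter (fun j => Nat.Coprime j r),
        β (g * j) * (DirichletCharacter.changeLevel hf ψ) (j : ZMod r) =
        ∑ j ∈ Icc 1 (J / g), bc β g (r / f) j * ψ (j : ZMod f) := by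
      rw [Finset.sum_filter]
      refine Finset.sum_congr rfl fun n _ => ?_
      unfold bc
      split_ifs with h3 h4 h4
      · rw [char_level f r hf ψ n h3]
      · exfalso
        apply h4
        exact Nat.Coprime.coprime_dvd_right (Nat.div_dvd_of_dvd hf) h3
      · have h5 : ¬ Nat.Coprime n f := by
          intro h5
          apply h3
          rw [← hrf]
          exact Nat.Coprime.mul_right h5 h4
        rw [char_zero f ψ n h5, mul_zero]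
      · rw [zero_mul]
    rw [h2, h3, sum_gam, norm_mul, mul_pow]
    exact mul_le_mul_of_nonneg_right h1 (by positivity)
  · intro n hn
    exact Nat.Coprime.coprime_mul_left_right (mem_filter.1 hn).2
  · intro j hj
    exact (mem_filter.1 hj).2

lemma iv_cast (g r n : ℕ) (hg : 0 < g) [NeZero r] (hn : Nat.Coprime n (g * r)) :
    ((iv (g * r) n : ℕ) : ZMod r) = (n : ZMod r)⁻¹ := by
  have hr : 0 < r := NeZero.pos r
  have : NeZero (g * r) := ⟨(Nat.mul_pos hg hr).ne'⟩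
  have h1 : ((n * iv (g * r) n : ℕ) : ZMod (g * r)) = ((1 : ℕ) : ZMod (g * r)) := by
    unfold iv
    push_cast
    rw [ZMod.natCast_zmod_val, ZMod.coe_mul_inv_eq_one n hn]
  rw [ZMod.natCast_eq_natCast_iff] at h1
  have h2 := (h1.of_mul_left g)
  rw [← ZMod.natCast_eq_natCast_iff] at h2
  push_cast at h2
  have h3 : (n : ZMod r) * (n : ZMod r)⁻¹ = 1 :=
    ZMod.coe_mul_inv_eq_one n (Nat.Coprime.coprime_mul_left_right hn)
  calc ((iv (g * r) n : ℕ) : ZMod r) = ((n : ZMod r) * (n : ZMod r)⁻¹) * (iv (g * r) n : ℕ) := by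
        rw [h3, one_mul]
    _ = ((n : ZMod r) * (iv (g * r) n : ℕ)) * (n : ZMod r)⁻¹ := by ring
    _ = _ := by rw [h2, one_mul]

lemma ee_eq (g r n x j : ℕ) (hg : 0 < g) [NeZero r] (hn : Nat.Coprime n (g * r)) :
    ee (g * r) ((x : ℤ) * ((g * j : ℕ) : ℤ) * iv (g * r) n) =
      ZMod.stdAddChar ((x : ZMod r) * ((j : ZMod r) * (n : ZMod r)⁻¹)) := by
  have hr : 0 < r := NeZero.pos r
  rw [← iv_cast g r n hg hn]
  have h1 : ((x : ZMod r) * ((j : ZMod r) * ((iv (g * r) n : ℕ) : ZMod r))) =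
      (((x * j * iv (g * r) n : ℕ) : ℤ) : ZMod r) := by
    push_cast
    ring
  rw [h1, ZMod.stdAddChar_coe]
  unfold ee
  congr 1
  have h2 : (g : ℂ) ≠ 0 := by exact_mod_cast hg.ne'
  have h3 : (r : ℂ) ≠ 0 := by exact_mod_cast hr.ne'
  push_cast
  field_simp

/-- part of the sum with `gcd(j,q) = g` -/
def Sq (N J : ℕ) (α β : ℕ → ℂ) (q g x : ℕ) : ℂ :=
  ∑ n ∈ (Icc 1 N).filter (fun n => Nat.Coprime n q),
    ∑ j ∈ (Icc 1 (J / g)).filter (fun j => Nat.Coprime j (q / g)),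
      α n * β (g * j) * ee q ((x : ℤ) * ((g * j : ℕ) : ℤ) * iv q n)

lemma local_g (hG : GaussLe) (N J : ℕ) (α β : ℕ → ℂ) (q g : ℕ) (hq : 0 < q) (hg : g ∣ q) :
    ∑ x ∈ (range q).filter (fun x => Nat.Coprime x q), ‖Sq N J α β q g x‖ ^ 2 ≤
      g * ∑ f ∈ (q / g).divisors, ((f : ℝ) / f.totient) * (1 / (q / g / f).totient) *
        BB N J α β f g (q / g / f) := by
  obtain ⟨r, rfl⟩ := hg
  have hg0 : 0 < g := Nat.pos_of_mul_pos_right hq
  have hr0 : 0 < r := Nat.pos_of_mul_pos_left hq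
  have : NeZero r := ⟨hr0.ne'⟩
  rw [Nat.mul_div_cancel_left r hg0]
  have h1 : ∀ x : ℕ, Sq N J α β (g * r) g x =
      Sg r ((Icc 1 N).filter (fun n => Nat.Coprime n (g * r)))
        ((Icc 1 (J / g)).filter (fun j => Nat.Coprime j r)) α (fun j => β (g * j)) (x : ZMod r) := by
    intro x
    unfold Sq Sg
    rw [Nat.mul_div_cancel_left r hg0]
    refine Finset.sum_congr rfl fun n hn => Finset.sum_congr rfl fun j _ => ?_
    rw [ee_eq g r n x j hg0 (mem_filter.1 hn).2]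
  simp_rw [h1]
  refine (sum_cop_le g r (fun y => ‖Sg r ((Icc 1 N).filter (fun n => Nat.Coprime n (g * r)))
        ((Icc 1 (J / g)).filter (fun j => Nat.Coprime j r)) α (fun j => β (g * j)) y‖ ^ 2)
        fun y => by positivity).trans ?_
  refine mul_le_mul_of_nonneg_left ?_ (Nat.cast_nonneg g)
  have h2 := units_le hG N J α β g r
  have hphi : (0 : ℝ) < r.totient := by exact_mod_cast Nat.totient_pos.2 hr0
  rw [← le_div_iff₀' hphi] at h2
  refine h2.trans ?_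
  rw [Finset.sum_div]
  refine Finset.sum_le_sum fun f hf => ?_
  have hfr := Nat.dvd_of_mem_divisors hf
  have hf0 : 0 < f := Nat.pos_of_mem_divisors hf
  have he0 : 0 < r / f := Nat.div_pos (Nat.le_of_dvd hr0 hfr) hf0
  have h3 : f.totient * (r / f).totient ≤ r.totient := by
    have := Nat.totient_super_multiplicative f (r / f)
    rwa [Nat.mul_div_cancel' hfr] at this
  have h4 : (0 : ℝ) < f.totient := by exact_mod_cast Nat.totient_pos.2 hf0
  have h5 : (0 : ℝ) < (r / f).totient := by exact_mod_cast Nat.totient_pos.2 he0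
  have h6 : (f.totient : ℝ) * (r / f).totient ≤ r.totient := by exact_mod_cast h3
  have h7 := BB_nonneg N J α β f g (r / f)
  calc (f : ℝ) * BB N J α β f g (r / f) / r.totient
      ≤ (f : ℝ) * BB N J α β f g (r / f) / (f.totient * (r / f).totient) := by
        gcongr
    _ = _ := by
        field_simp

lemma local_q (hG : GaussLe) (N J : ℕ) (α β : ℕ → ℂ) (q : ℕ) (hq : 0 < q) :
    ∑ x ∈ (range q).filter (fun x => Nat.Coprime x q),
      ‖∑ n ∈ (Icc 1 N).filter (fun n => Nat.Coprime n q), ∑ j ∈ Icc 1 J,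
        α n * β j * ee q ((x : ℤ) * j * iv q n)‖ ^ 2 ≤
      (q.divisors.card : ℝ) * ∑ g ∈ q.divisors, (g : ℝ) *
        ∑ f ∈ (q / g).divisors, ((f : ℝ) / f.totient) * (1 / (q / g / f).totient) *
        BB N J α β f g (q / g / f) := by
  have h1 : ∀ x : ℕ, ∑ n ∈ (Icc 1 N).filter (fun n => Nat.Coprime n q), ∑ j ∈ Icc 1 J,
        α n * β j * ee q ((x : ℤ) * j * iv q n) = ∑ g ∈ q.divisors, Sq N J α β q g x := by
    intro x
    unfold Sq
    conv_rhs => rw [Finset.sum_comm]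
    refine Finset.sum_congr rfl fun n _ => ?_
    exact group_gcd J q hq fun j => α n * β j * ee q ((x : ℤ) * (j : ℤ) * iv q n)
  simp_rw [h1]
  have h2 : ∀ x : ℕ, ‖∑ g ∈ q.divisors, Sq N J α β q g x‖ ^ 2 ≤
      (q.divisors.card : ℝ) * ∑ g ∈ q.divisors, ‖Sq N J α β q g x‖ ^ 2 := by
    intro x
    calc ‖∑ g ∈ q.divisors, Sq N J α β q g x‖ ^ 2 ≤ (∑ g ∈ q.divisors, ‖Sq N J α β q g x‖) ^ 2 := by
          gcongr
          exact norm_sum_le _ _
      _ ≤ _ := sq_sum_le_card_mul_sum_sq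
  refine (Finset.sum_le_sum fun x _ => h2 x).trans ?_
  rw [← Finset.mul_sum]
  refine mul_le_mul_of_nonneg_left ?_ (Nat.cast_nonneg _)
  rw [Finset.sum_comm]
  exact Finset.sum_le_sum fun g hg => local_g hG N J α β q g hq (Nat.dvd_of_mem_divisors hg)

lemma sum_inv_le (δ : ℝ) (hδ : 0 < δ) (K : ℕ) (hK : 1 ≤ K) :
    ∑ m ∈ Icc 1 K, 1 / (m : ℝ) ≤ (1 + 1 / δ) * (K : ℝ) ^ δ := by
  have h1 := harmonic_le_one_add_log K
  have h2 : ((harmonic K : ℚ) : ℝ) = ∑ m ∈ Icc 1 K, 1 / (m : ℝ) := by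
    rw [harmonic_eq_sum_Icc]
    push_cast
    simp
  rw [← h2]
  have hK1 : (1 : ℝ) ≤ K := by exact_mod_cast hK
  have h3 : Real.log K ≤ (K : ℝ) ^ δ / δ := Real.log_le_rpow_div (by positivity) hδ
  have h4 : (1 : ℝ) ≤ (K : ℝ) ^ δ := Real.one_le_rpow hK1 hδ.le
  calc ((harmonic K : ℚ) : ℝ) ≤ 1 + Real.log K := h1
    _ ≤ (K : ℝ) ^ δ + (K : ℝ) ^ δ / δ := by linarith
    _ = _ := by ring

lemma sum_totient_le (δ C1 : ℝ) (hδ : 0 < δ) (hC1 : 0 < C1)
    (hd : ∀ n : ℕ, 1 ≤ n → (n.divisors.card : ℝ) ≤ C1 * (n : ℝ) ^ δ) (K : ℕ) (hK : 1 ≤ K) :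
    ∑ m ∈ Icc 1 K, 1 / (m.totient : ℝ) ≤ C1 * (K : ℝ) ^ δ * ((1 + 1 / δ) * (K : ℝ) ^ δ) := by
  refine le_trans ?_ (mul_le_mul_of_nonneg_left (sum_inv_le δ hδ K hK) (by positivity))
  rw [Finset.mul_sum]
  refine Finset.sum_le_sum fun m hm => ?_
  rw [mem_Icc] at hm
  have h1 : (m : ℝ) ≤ m.divisors.card * m.totient := by exact_mod_cast le_card_mul_totient m hm.1
  have h2 : (0 : ℝ) < m.totient := by exact_mod_cast Nat.totient_pos.2 hm.1
  have h3 : (0 : ℝ) < m := by exact_mod_cast hm.1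
  have h4 : (m.divisors.card : ℝ) ≤ C1 * (K : ℝ) ^ δ := by
    refine (hd m hm.1).trans ?_
    gcongr
    exact_mod_cast hm.2
  rw [mul_one_div, div_le_div_iff₀ h2 h3, one_mul]
  exact h1.trans (by gcongr)

lemma gam_sum_le (δ C1 : ℝ) (hδ : 0 < δ) (hC1 : 0 < C1)
    (hd : ∀ n : ℕ, 1 ≤ n → (n.divisors.card : ℝ) ≤ C1 * (n : ℝ) ^ δ) (N J : ℕ) (hN : 1 ≤ N)
    (hJ : 1 ≤ J) (α β : ℕ → ℂ) (hα : ∀ n, 1 ≤ n → ‖α n‖ ≤ 1 / Real.sqrt n)
    (hβ : ∀ j, 1 ≤ j → ‖β j‖ ≤ 1 / Real.sqrt j) (g e : ℕ) (hg : 1 ≤ g) :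
    ∑ m ∈ Icc 1 (N * (J / g)), ‖gam N (J / g) (ac α (g * e)) (bc β g e) m‖ ^ 2 ≤
      (1 / (g : ℝ)) * ((C1 * ((N : ℝ) * J) ^ δ) ^ 2 * ((1 + 1 / δ) * ((N : ℝ) * J) ^ δ)) := by
  have hg0 : (0 : ℝ) < g := by exact_mod_cast hg
  have ha : ∀ n, 1 ≤ n → ‖ac α (g * e) n‖ ≤ 1 / Real.sqrt n := by
    intro n hn
    unfold ac
    split_ifs
    · rw [Complex.norm_conj]
      exact hα n hn
    · rw [norm_zero]
      positivity
  have hb : ∀ j, 1 ≤ j → ‖bc β g e j‖ ≤ 1 / Real.sqrt ((g * j : ℕ) : ℝ) := by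
    intro j hj
    unfold bc
    split_ifs
    · exact hβ (g * j) (Nat.mul_pos hg hj)
    · rw [norm_zero]
      positivity
  have h1 : ∀ m ∈ Icc 1 (N * (J / g)), ‖gam N (J / g) (ac α (g * e)) (bc β g e) m‖ ^ 2 ≤
      (1 / (g : ℝ)) * ((C1 * ((N : ℝ) * J) ^ δ) ^ 2 * (1 / (m : ℝ))) := by
    intro m hm
    rw [mem_Icc] at hm
    refine (norm_gam_le N (J / g) g hg _ _ ha hb m hm.1).trans ?_
    have hm0 : (0 : ℝ) < m := by exact_mod_cast hm.1
    have h2 : (m.divisors.card : ℝ) ≤ C1 * ((N : ℝ) * J) ^ δ := by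
      refine (hd m hm.1).trans ?_
      gcongr
      have h3 : m ≤ N * J := hm.2.trans (Nat.mul_le_mul_left N (Nat.div_le_self J g))
      exact_mod_cast h3
    calc (m.divisors.card : ℝ) ^ 2 / (g * m) ≤ (C1 * ((N : ℝ) * J) ^ δ) ^ 2 / (g * m) := by gcongr
      _ = _ := by field_simp
  refine (Finset.sum_le_sum h1).trans ?_
  rw [← Finset.mul_sum, ← Finset.mul_sum]
  refine mul_le_mul_of_nonneg_left (mul_le_mul_of_nonneg_left ?_ (by positivity)) (by positivity)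
  have h2 : N * (J / g) ≤ N * J := Nat.mul_le_mul_left N (Nat.div_le_self J g)
  refine (Finset.sum_le_sum_of_subset_of_nonneg (Finset.Icc_subset_Icc_right h2)
    fun _ _ _ => by positivity).trans ?_
  have h3 := sum_inv_le δ hδ (N * J) (Nat.mul_pos hN hJ)
  push_cast at h3
  exact h3

lemma inner_le (δ C1 : ℝ) (hδ : 0 < δ) (hC1 : 0 < C1)
    (hd : ∀ n : ℕ, 1 ≤ n → (n.divisors.card : ℝ) ≤ C1 * (n : ℝ) ^ δ) (N J : ℕ) (hN : 1 ≤ N)
    (hJ : 1 ≤ J) (α β : ℕ → ℂ) (hα : ∀ n, 1 ≤ n → ‖α n‖ ≤ 1 / Real.sqrt n)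
    (hβ : ∀ j, 1 ≤ j → ‖β j‖ ≤ 1 / Real.sqrt j) (Q g e : ℕ) (hg : 1 ≤ g) (he : 1 ≤ e) :
    ∑ f ∈ Icc 1 (Q / g / e), ((f : ℝ) / f.totient) * BB N J α β f g e ≤
      6 * (((N : ℝ) * J + (Q : ℝ) ^ 2) / g) *
        ((1 / (g : ℝ)) * ((C1 * ((N : ℝ) * J) ^ δ) ^ 2 * ((1 + 1 / δ) * ((N : ℝ) * J) ^ δ))) := by
  have hg0 : (1 : ℝ) ≤ g := by exact_mod_cast hg
  have he0 : (1 : ℝ) ≤ e := by exact_mod_cast he
  have h1 := Pool.Agent.Helper112.mult_large_sieve (N * (J / g)) (Q / g / e)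
    (gam N (J / g) (ac α (g * e)) (bc β g e))
  have h2 := gam_sum_le δ C1 hδ hC1 hd N J hN hJ α β hα hβ g e hg
  refine le_trans (le_of_eq ?_) (h1.trans (mul_le_mul ?_ h2 (Finset.sum_nonneg fun _ _ => by positivity)
    (by positivity)))
  · rfl
  · refine mul_le_mul_of_nonneg_left ?_ (by norm_num)
    have h3 : ((N * (J / g) : ℕ) : ℝ) ≤ (N : ℝ) * J / g := by
      push_cast
      rw [mul_div_assoc]
      refine mul_le_mul_of_nonneg_left Nat.cast_div_le (Nat.cast_nonneg _)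
    have h4 : ((Q / g / e : ℕ) : ℝ) ≤ (Q : ℝ) / g := by
      refine (Nat.cast_div_le).trans ?_
      refine (div_le_self (Nat.cast_nonneg _) he0).trans ?_
      exact Nat.cast_div_le
    have h5 : ((Q / g / e : ℕ) : ℝ) ^ 2 ≤ (Q : ℝ) ^ 2 / g := by
      calc ((Q / g / e : ℕ) : ℝ) ^ 2 ≤ ((Q : ℝ) / g) ^ 2 := by gcongr
        _ = (Q : ℝ) ^ 2 / g / g := by rw [div_pow, sq (g : ℝ), div_div]
        _ ≤ (Q : ℝ) ^ 2 / g := div_le_self (by positivity) hg0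
    calc ((N * (J / g) : ℕ) : ℝ) + ((Q / g / e : ℕ) : ℝ) ^ 2
        ≤ (N : ℝ) * J / g + (Q : ℝ) ^ 2 / g := add_le_add h3 h5
      _ = _ := by rw [add_div]

/-- T8, from T8a -/
theorem BIL_of (hG : GaussLe) (ε : ℝ) (hε : 0 < ε) : ∃ C : ℝ, 0 < C ∧ ∀ (Q N J : ℕ), 1 ≤ Q → 1 ≤ N → 1 ≤ J →
    ∀ α β : ℕ → ℂ, (∀ n, 1 ≤ n → ‖α n‖ ≤ 1 / Real.sqrt n) → (∀ j, 1 ≤ j → ‖β j‖ ≤ 1 / Real.sqrt j) →
    ∑ q ∈ Icc 1 Q, ∑ x ∈ (range q).filter (fun x => Nat.Coprime x q),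
      ‖∑ n ∈ (Icc 1 N).filter (fun n => Nat.Coprime n q), ∑ j ∈ Icc 1 J,
        α n * β j * ee q ((x : ℤ) * j * iv q n)‖ ^ 2 ≤
      C * ((Q : ℝ) * N * J) ^ ε * ((Q : ℝ) ^ 2 + N * J) := by
  set δ := ε / 4 with hδe
  have hδ : 0 < δ := by positivity
  obtain ⟨C1, hC1, hd⟩ := Pool.Agent.H510R2.divisor_bound δ hδ
  set C2 := 1 + 1 / δ with hC2
  have hC2p : 0 < C2 := by positivity
  refine ⟨6 * C1 ^ 4 * C2 ^ 3, by positivity, ?_⟩
  intro Q N J hQ hN hJ α β hα hβ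
  have hQ1 : (1 : ℝ) ≤ Q := by exact_mod_cast hQ
  have hN1 : (1 : ℝ) ≤ N := by exact_mod_cast hN
  have hJ1 : (1 : ℝ) ≤ J := by exact_mod_cast hJ
  have hNJ : (1 : ℝ) ≤ (N : ℝ) * J := by nlinarith
  set E : ℝ := (C1 * ((N : ℝ) * J) ^ δ) ^ 2 * (C2 * ((N : ℝ) * J) ^ δ) with hE
  set D : ℝ := C1 * (Q : ℝ) ^ δ with hD
  have hD0 : 0 < D := by positivity
  have hE0 : 0 < E := by positivity
  -- first step
  have h1 : ∀ q ∈ Icc 1 Q, ∑ x ∈ (range q).filter (fun x => Nat.Coprime x q),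
      ‖∑ n ∈ (Icc 1 N).filter (fun n => Nat.Coprime n q), ∑ j ∈ Icc 1 J,
        α n * β j * ee q ((x : ℤ) * j * iv q n)‖ ^ 2 ≤
      D * ∑ g ∈ q.divisors, (g : ℝ) *
        ∑ e ∈ (q / g).divisors, ((((q / g) / e : ℕ) : ℝ) / ((q / g) / e).totient) *
          (1 / e.totient) * BB N J α β ((q / g) / e) g e := by
    intro q hq
    rw [mem_Icc] at hq
    refine (local_q hG N J α β q hq.1).trans ?_
    have h2 : (q.divisors.card : ℝ) ≤ D := by
      refine (hd q hq.1).trans ?_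
      rw [hD]
      gcongr
      exact_mod_cast hq.2
    refine mul_le_mul h2 (le_of_eq ?_) (Finset.sum_nonneg fun g _ => mul_nonneg (Nat.cast_nonneg _)
      (Finset.sum_nonneg fun f _ => mul_nonneg (by positivity) (BB_nonneg _ _ _ _ _ _ _))) hD0.le
    refine Finset.sum_congr rfl fun g hg => ?_
    congr 1
    rw [← Nat.sum_div_divisors (q / g) (fun f => ((f : ℝ) / f.totient) * (1 / (q / g / f).totient) *
        BB N J α β f g (q / g / f))]
    refine Finset.sum_congr rfl fun e he => ?_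
    have h3 : q / g / (q / g / e) = e := by
      apply Nat.div_div_self (Nat.dvd_of_mem_divisors he)
      exact (Nat.mem_divisors.1 he).2
    simp only [h3]
  refine (Finset.sum_le_sum h1).trans ?_
  rw [← Finset.mul_sum]
  rw [sum_div_rearr Q (fun g r => (g : ℝ) *
        ∑ e ∈ r.divisors, (((r / e : ℕ) : ℝ) / (r / e).totient) *
          (1 / e.totient) * BB N J α β (r / e) g e)]
  have h2 : ∀ g ∈ Icc 1 Q, ∑ r ∈ Icc 1 (Q / g), (g : ℝ) *
        ∑ e ∈ r.divisors, (((r / e : ℕ) : ℝ) / (r / e).totient) *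
          (1 / e.totient) * BB N J α β (r / e) g e ≤
      (6 * ((N : ℝ) * J + (Q : ℝ) ^ 2) * E * (D * (C2 * (Q : ℝ) ^ δ))) * (1 / (g : ℝ)) := by
    intro g hg
    rw [mem_Icc] at hg
    have hg0 : (0 : ℝ) < g := by exact_mod_cast hg.1
    rw [← Finset.mul_sum]
    rw [sum_div_rearr (Q / g) (fun e f => (((f : ℕ) : ℝ) / f.totient) *
          (1 / e.totient) * BB N J α β f g e)]
    have h3 : ∀ e ∈ Icc 1 (Q / g), ∑ f ∈ Icc 1 (Q / g / e), (((f : ℕ) : ℝ) / f.totient) *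
          (1 / e.totient) * BB N J α β f g e ≤
        (1 / (e.totient : ℝ)) * (6 * (((N : ℝ) * J + (Q : ℝ) ^ 2) / g) * ((1 / (g : ℝ)) * E)) := by
      intro e he
      rw [mem_Icc] at he
      have h4 := inner_le δ C1 hδ hC1 hd N J hN hJ α β hα hβ Q g e hg.1 he.1
      refine le_trans (le_of_eq ?_) (mul_le_mul_of_nonneg_left h4 (by positivity :
        (0 : ℝ) ≤ 1 / (e.totient : ℝ)))
      rw [Finset.mul_sum]
      refine Finset.sum_congr rfl fun f _ => ?_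
      ring
    have h5 : ∑ e ∈ Icc 1 (Q / g), 1 / (e.totient : ℝ) ≤ D * (C2 * (Q : ℝ) ^ δ) := by
      refine le_trans ?_ (sum_totient_le δ C1 hδ hC1 hd Q hQ)
      exact Finset.sum_le_sum_of_subset_of_nonneg (Finset.Icc_subset_Icc_right (Nat.div_le_self Q g))
        fun _ _ _ => by positivity
    have h6 := Finset.sum_le_sum h3
    rw [← Finset.sum_mul] at h6
    calc (g : ℝ) * ∑ e ∈ Icc 1 (Q / g), ∑ f ∈ Icc 1 (Q / g / e), (((f : ℕ) : ℝ) / f.totient) *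
          (1 / e.totient) * BB N J α β f g e
        ≤ (g : ℝ) * ((D * (C2 * (Q : ℝ) ^ δ)) *
          (6 * (((N : ℝ) * J + (Q : ℝ) ^ 2) / g) * ((1 / (g : ℝ)) * E))) := by
          refine mul_le_mul_of_nonneg_left (h6.trans ?_) hg0.le
          exact mul_le_mul_of_nonneg_right h5 (by positivity)
      _ = _ := by
          field_simp
  refine (mul_le_mul_of_nonneg_left (Finset.sum_le_sum h2) hD0.le).trans ?_
  rw [← Finset.mul_sum]
  have h7 := sum_inv_le δ hδ Q hQ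
  rw [← hC2] at h7
  calc D * ((6 * ((N : ℝ) * J + (Q : ℝ) ^ 2) * E * (D * (C2 * (Q : ℝ) ^ δ))) *
        ∑ g ∈ Icc 1 Q, 1 / (g : ℝ))
      ≤ D * ((6 * ((N : ℝ) * J + (Q : ℝ) ^ 2) * E * (D * (C2 * (Q : ℝ) ^ δ))) *
        (C2 * (Q : ℝ) ^ δ)) := by gcongr
    _ = 6 * C1 ^ 4 * C2 ^ 3 * (((Q : ℝ) ^ δ) ^ 4 * (((N : ℝ) * J) ^ δ) ^ 3) *
        ((Q : ℝ) ^ 2 + N * J) := by
        rw [hD, hE]
        ring
    _ ≤ 6 * C1 ^ 4 * C2 ^ 3 * ((Q : ℝ) * N * J) ^ ε * ((Q : ℝ) ^ 2 + N * J) := by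
        refine mul_le_mul_of_nonneg_right (mul_le_mul_of_nonneg_left ?_ (by positivity)) (by positivity)
        have e1 : ((Q : ℝ) * N * J) ^ ε = ((Q : ℝ) ^ δ) ^ 4 * (((N : ℝ) * J) ^ δ) ^ 4 := by
          rw [mul_assoc, Real.mul_rpow (by positivity) (by positivity)]
          have e2 : ε = δ * (4 : ℕ) := by
            rw [hδe]
            push_cast
            ring
          rw [e2, Real.rpow_mul_natCast (by positivity), Real.rpow_mul_natCast (by positivity)]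
        rw [e1]
        refine mul_le_mul_of_nonneg_left ?_ (by positivity)
        exact pow_le_pow_right₀ (Real.one_le_rpow hNJ hδ.le) (by norm_num)

/-- T8. large sieve for fractions `x j n⁻¹ / q` -/
theorem BIL (ε : ℝ) (hε : 0 < ε) : ∃ C : ℝ, 0 < C ∧ ∀ (Q N J : ℕ), 1 ≤ Q → 1 ≤ N → 1 ≤ J →
    ∀ α β : ℕ → ℂ, (∀ n, 1 ≤ n → ‖α n‖ ≤ 1 / Real.sqrt n) → (∀ j, 1 ≤ j → ‖β j‖ ≤ 1 / Real.sqrt j) →
    ∑ q ∈ Icc 1 Q, ∑ x ∈ (range q).filter (fun x => Nat.Coprime x q),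
      ‖∑ n ∈ (Icc 1 N).filter (fun n => Nat.Coprime n q), ∑ j ∈ Icc 1 J,
        α n * β j * ee q ((x : ℤ) * j * iv q n)‖ ^ 2 ≤
      C * ((Q : ℝ) * N * J) ^ ε * ((Q : ℝ) ^ 2 + N * J) :=
  BIL_of (fun r _ χ => Pool.Agent.H341R2.EM.gauss_le r χ) ε hε

end

end Pool.Agent.H997R2.EM8
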