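import Pool.Agent.H923R2.FP.Stubs

set_option autoImplicit false

open scoped ComplexConjugate ComplexOrder

noncomputable section

namespace Pool.Agent.H923R2.FP.T_KEY

open Pool.Agent.H923R2.FP

theorem t_KEY (hF1 : S_F1) (hPH : S_PH) (hMID : S_MID) : S_KEY := by
  intro A Q R _ _ _ _ _ _ _ τ π ρ s u a X p hτ hS hG v g hp m n w
  have hphi := hF1 A Q R τ π ρ s hτ hS
  obtain ⟨M1, M2⟩ := hMID A Q R τ π ρ s u a X p hτ hG
  have hmul : ∀ x y : F2, (GG π ρ u a (x * y) : A) = (GG π ρ u a x : A) * (GG π ρ u a y : A) := by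
    intro x y
    rw [map_mul]; rfl
  have hone : (GG π ρ u a (1 : F2) : A) = 1 := by
    rw [map_one]; rfl
  have hinv : ∀ x : F2, (GG π ρ u a x : A) * (GG π ρ u a x⁻¹ : A) = 1 := by
    intro x
    rw [← hmul, mul_inv_cancel, hone]
  have hinv' : ∀ x : F2, (GG π ρ u a x⁻¹ : A) * (GG π ρ u a x : A) = 1 := by
    intro x
    rw [← hmul, inv_mul_cancel, hone]
  have hP0 : PU π ρ u a X v 0 = 1 := by
    unfold PU
    rw [show Uc X 0 = 1 from rfl, map_one, mul_one, hinv]
  have hn1 : (g * v).norm + (v⁻¹).norm < p := by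
    have h1 := FreeGroup.norm_mul_le g v
    have h2 := FreeGroup.norm_inv_eq (x := v)
    omega
  have hn2 : v.norm + (v⁻¹ * g⁻¹).norm < p := by
    have h1 := FreeGroup.norm_mul_le v⁻¹ g⁻¹
    have h2 := FreeGroup.norm_inv_eq (x := v)
    have h3 := FreeGroup.norm_inv_eq (x := g)
    omega
  have hn3 : g.norm < p := by omega
  have hn4 : (g⁻¹).norm < p := by
    have h3 := FreeGroup.norm_inv_eq (x := g)
    omega
  -- the left word
  obtain ⟨l, hl, hle, hlq⟩ : ∃ l : List (Lt Q R), Red τ (vl π ρ s) l ∧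
      ev (vl π ρ s) l = (GG π ρ u a g : A) * PU π ρ u a X v m ∧
      (hq l ↔ if m = 0 then S1 g else S1 (g * v)) := by
    by_cases hm : m = 0
    · obtain ⟨b, hb, hbe, hbq, -⟩ := M1 g hn3
      refine ⟨b, hb, ?_, by simpa [hm] using hbq⟩
      rw [hbe, hm, hP0, mul_one]
    · obtain ⟨b, hb, hbe, hbq, -⟩ := M2 (g * v) v⁻¹ m hn1 hm
      refine ⟨b, hb, ?_, by simpa [hm] using hbq⟩
      rw [hbe, hmul]
      unfold PU
      noncomm_ring
  obtain ⟨r, hr, hre, hrq⟩ : ∃ r : List (Lt Q R), Red τ (vl π ρ s) r ∧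
      ev (vl π ρ s) r = PU π ρ u a X v n * (GG π ρ u a g⁻¹ : A) ∧
      (lq r ↔ if n = 0 then S1 g else S1 (g * v)) := by
    by_cases hm : n = 0
    · obtain ⟨b, hb, hbe, -, hbq, -⟩ := M1 g⁻¹ hn4
      refine ⟨b, hb, ?_, by simpa [hm] using hbq⟩
      rw [hbe, hm, hP0, one_mul]
    · obtain ⟨b, hb, hbe, -, hbq, -⟩ := M2 v (v⁻¹ * g⁻¹) n hn2 hm
      refine ⟨b, hb, ?_, by simpa [hm] using hbq⟩
      rw [hbe, hmul]
      unfold PU
      noncomm_ring
  have key := hPH A Q R τ π ρ s hτ hS hphi l r hl hr w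
  rw [hle, hre] at key
  rw [key]
  have i1 : ind (hq l) = ind (if m = 0 then S1 g else S1 (g * v)) := congrArg ind (propext hlq)
  have i2 : ind (lq r) = ind (if n = 0 then S1 g else S1 (g * v)) := congrArg ind (propext hrq)
  have j1 : ∀ q : Prop, q → ind q = 1 := by
    intro q hq; unfold ind; simp [hq]
  have j2 : ∀ q : Prop, ¬ q → ind q = 0 := by
    intro q hq; unfold ind; simp [hq]
  have htr : ∀ y : A, τ ((GG π ρ u a g : A) * y * (GG π ρ u a g⁻¹ : A)) = τ y := by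
    intro y
    rw [hτ.comm, ← mul_assoc, hinv', one_mul]
  rw [i1, i2]
  unfold eps
  by_cases hm : m = 0 <;> by_cases hn : n = 0
  · subst hm; subst hn
    simp
  · subst hm
    rw [hP0]
    have : τ ((GG π ρ u a g : A) * 1 * ev (vl π ρ s) w *
        (PU π ρ u a X v n * (GG π ρ u a g⁻¹ : A))) = τ (PU π ρ u a X v n * ev (vl π ρ s) w) := by
      rw [mul_one, hτ.comm (PU π ρ u a X v n), ← htr (ev (vl π ρ s) w * PU π ρ u a X v n)]
      congr 1
      noncomm_ring
    rw [this]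
    simp only [hn, if_true, if_false]
    push_cast
    by_cases h1 : S1 g <;> by_cases h2 : S1 (g * v) <;> simp [h1, h2, j1, j2]
  · subst hn
    rw [hP0]
    have : τ ((GG π ρ u a g : A) * PU π ρ u a X v m * ev (vl π ρ s) w *
        (1 * (GG π ρ u a g⁻¹ : A))) = τ (PU π ρ u a X v m * ev (vl π ρ s) w) := by
      rw [one_mul, ← htr (PU π ρ u a X v m * ev (vl π ρ s) w)]
      congr 1
      noncomm_ring
    rw [this]
    simp only [hm, if_true, if_false]
    push_cast
    by_cases h1 : S1 g <;> by_cases h2 : S1 (g * v) <;> simp [h1, h2, j1, j2]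
  · simp [hm, hn]

end Pool.Agent.H923R2.FP.T_KEY
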