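import Pool.Agent.H306R2.RZ.Defs2

set_option autoImplicit false

/-! Project RZ, second wave, task ES3: the sieved mean squares. -/

namespace Pool.Agent.H997R2.RZ

open Finset Filter Topology MeasureTheory Pool.Agent.H306R2.RZ

/-- `n ↦ n⁻²` as an arithmetic function -/
noncomputable def ES3_inv : ArithmeticFunction ℝ := ⟨fun n => 1 / (n : ℝ) ^ 2, by simp⟩

theorem ES3_inv_mult : ES3_inv.IsMultiplicative := by
  refine ⟨by simp [ES3_inv], ?_⟩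
  intro m n _
  show 1 / ((m * n : ℕ) : ℝ) ^ 2 = 1 / (m : ℝ) ^ 2 * (1 / (n : ℝ) ^ 2)
  push_cast
  rw [mul_pow, one_div_mul_one_div]

theorem ES3_PiP (P : ℕ) (hPs : Squarefree P) :
    ∑ a ∈ P.divisors, ((ArithmeticFunction.moebius a : ℤ) : ℝ) / (a : ℝ) ^ 2 = PiP P := by
  unfold PiP
  have h := ArithmeticFunction.IsMultiplicative.prodPrimeFactors_one_sub_of_squarefree ES3_inv ES3_inv_mult hPs
  have h1 : ∀ p : ℕ, ES3_inv p = 1 / (p : ℝ) ^ 2 := fun p => rfl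
  simp only [h1] at h
  rw [h]
  refine Finset.sum_congr rfl fun a _ => ?_
  rw [mul_one_div]

/-- general form: limits of the sieved averages -/
theorem ES3_lim (P : ℕ) (hP : Odd P) (hPs : Squarefree P) (F : ℝ → ℝ) (f : ℕ → ℝ → ℕ → ℝ) (l : ℝ)
    (hf : ∀ a L d, Odd a → f 1 L (a ^ 2 * d) = f a L d)
    (hlim : ∀ a, Odd a → ∀ c : ℝ, 0 < c →
      Tendsto (fun L : ℝ => EF F (c * Real.exp L) (fun d => f a L d)) atTop (𝓝 l)) :
    Tendsto (fun L : ℝ => ES P F (Real.exp L) (fun d => f 1 L d)) atTop (𝓝 (PiP P * l)) := by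
  rw [← ES3_PiP P hPs, Finset.sum_mul]
  unfold ES
  refine tendsto_finsetSum _ fun a ha => ?_
  have haP := Nat.dvd_of_mem_divisors ha
  have ha1 : Odd a := Odd.of_dvd_nat hP haP
  have ha0 : 0 < a := Nat.pos_of_mem_divisors ha
  have h1 := (hlim a ha1 (1 / (a : ℝ) ^ 2) (by positivity)).const_mul
    (((ArithmeticFunction.moebius a : ℤ) : ℝ) / (a : ℝ) ^ 2)
  refine h1.congr fun L => ?_
  congr 1
  have h2 : 1 / (a : ℝ) ^ 2 * Real.exp L = Real.exp L / (a : ℝ) ^ 2 := by ring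
  rw [h2]
  congr 1
  funext d
  exact (hf a L d ha1).symm

/-- statement of `ES2` -/
def ES3_S2 : Prop := ∀ (a : ℕ) (_ha : Odd a) (L : ℝ) (w : ℝ → ℝ) (d : ℕ),
    Nd 2 L w (a ^ 2 * d) = Nd (2 * a) L w d ∧ Md 2 L w (a ^ 2 * d) = Md (2 * a) L w d

/-- statement of `GLim` -/
def ES3_SG : Prop := ∀ (F : ℝ → ℝ) (_hF : TF F) (q : ℕ) (_hq : Even q) (_hq0 : q ≠ 0) (c : ℝ) (_hc : 0 < c)
    (s θ : ℝ) (_hA : Adm s θ) (w w' Q Q' : ℝ → ℝ)
    (_h1 : Wt s w) (_h2 : Wt s w') (_h3 : Wt θ Q) (_h4 : Wt θ Q') (m m' : ℝ),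
    Tendsto (fun L : ℝ => EF F (c * Real.exp L) (fun d => G0 q L m w Q d ^ 2)) atTop
      (𝓝 (1 / 2 * Ft F 0 * (1 - m * mn w Q + m ^ 2 * BB w Q w Q))) ∧
    Tendsto (fun L : ℝ => EF F (c * Real.exp L) (fun d => G1 q L m m' w w' Q Q' d ^ 2)) atTop
      (𝓝 (1 / 2 * Ft F 0 * (m' ^ 2 * BB w Q w Q +
        2 * m * m' * (BB w Q w' Q + BB w Q w Q') +
        m ^ 2 * (BB w' Q w' Q + BB w' Q w Q' + (BB w Q' w' Q + BB w Q' w Q')))))

theorem ES3_of (hES2 : ES3_S2) (hG : ES3_SG) (P : ℕ) (hP : Odd P) (hPs : Squarefree P) (F : ℝ → ℝ)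
    (hF : TF F)
    (s θ : ℝ) (hA : Adm s θ) (w w' Q Q' : ℝ → ℝ)
    (h1 : Wt s w) (h2 : Wt s w') (h3 : Wt θ Q) (h4 : Wt θ Q') (m m' : ℝ) :
    Tendsto (fun L : ℝ => ES P F (Real.exp L) (fun d => G0 2 L m w Q d ^ 2)) atTop
      (𝓝 (PiP P * (1 / 2 * Ft F 0 * (1 - m * mn w Q + m ^ 2 * BB w Q w Q)))) ∧
    Tendsto (fun L : ℝ => ES P F (Real.exp L) (fun d => G1 2 L m m' w w' Q Q' d ^ 2)) atTop
      (𝓝 (PiP P * (1 / 2 * Ft F 0 * (m' ^ 2 * BB w Q w Q +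
        2 * m * m' * (BB w Q w' Q + BB w Q w Q') +
        m ^ 2 * (BB w' Q w' Q + BB w' Q w Q' + (BB w Q' w' Q + BB w Q' w Q')))))) := by
  have hq : ∀ a : ℕ, Odd a → Even (2 * a) ∧ 2 * a ≠ 0 := by
    intro a ha
    exact ⟨even_two_mul a, by rcases ha with ⟨k, rfl⟩; omega⟩
  constructor
  · refine ES3_lim P hP hPs F (fun a L d => G0 (2 * a) L m w Q d ^ 2) _ ?_ ?_
    · intro a L d ha
      simp only [mul_one]
      unfold G0
      rw [(hES2 a ha L w d).1, (hES2 a ha L Q d).2]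
    · intro a ha c hc
      exact (hG F hF (2 * a) (hq a ha).1 (hq a ha).2 c hc s θ hA w w' Q Q' h1 h2 h3 h4 m m').1
  · refine ES3_lim P hP hPs F (fun a L d => G1 (2 * a) L m m' w w' Q Q' d ^ 2) _ ?_ ?_
    · intro a L d ha
      simp only [mul_one]
      unfold G1
      rw [(hES2 a ha L w d).1, (hES2 a ha L Q d).2, (hES2 a ha L w' d).1, (hES2 a ha L Q' d).2]
    · intro a ha c hc
      exact (hG F hF (2 * a) (hq a ha).1 (hq a ha).2 c hc s θ hA w w' Q Q' h1 h2 h3 h4 m m').2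

end Pool.Agent.H997R2.RZ
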