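import Pool.Agent.H923R2.FZ.JS

/-! task RWAZ of helper923's project FZ -/

set_option autoImplicit false

open scoped ComplexConjugate ComplexOrder Kronecker Matrix.Norms.L2Operator

noncomputable section

namespace Pool.Agent.H923R2.FZ.T_RWAZ

open Pool.Agent.H923R2.FP Pool.Agent.H923R2.FZ

/-- strict positivity of the trace on nonzero functions of `a` -/
theorem fsl_of_spectrum {Z : Type} [CStarAlgebra Z] (t : Z →ₗ[ℂ] ℂ) (ht : FTS t) (a : Z)
    (ha : IsSelfAdjoint a) (hs : spectrum ℝ a = Set.Icc 0 1) : FSl t a := by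
  intro F hF hF0 hne
  obtain ⟨s, hs1, hs2⟩ := hne
  set y : Z := cfc (fun x => Real.sqrt (F x)) a with hy
  have hysa : IsSelfAdjoint y := cfc_predicate _ _
  have hyy : star y * y = cfc F a := by
    rw [hysa.star_eq, hy, ← cfc_mul (fun x => Real.sqrt (F x)) (fun x => Real.sqrt (F x)) a
      (hF.sqrt.continuousOn) (hF.sqrt.continuousOn)]
    congr 1
    funext x
    exact Real.mul_self_sqrt (hF0 x)
  rw [← hyy]
  rcases lt_or_eq_of_le (ht.nonneg y) with h | h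
  · exact h
  · exfalso
    have hy0 : y = 0 := ht.faith y h.symm
    have h0 : cfc F a = 0 := by rw [← hyy, hy0, mul_zero]
    have h1 : F s ∈ spectrum ℝ (cfc F a) := by
      rw [cfc_map_spectrum (R := ℝ) F a ha hF.continuousOn, hs]
      exact ⟨s, hs1, rfl⟩
    rw [h0] at h1
    have hnt : Nontrivial Z := by
      by_contra hcon
      have := not_nontrivial_iff_subsingleton.mp hcon
      have h2 : spectrum ℝ (0 : Z) = ∅ := spectrum.of_subsingleton _
      rw [h2] at h1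
      exact h1
    rw [spectrum.zero_eq] at h1
    exact hs2 h1

section

variable {N : ℕ} {Z : Type} [CStarAlgebra Z]

/-- Rordam-Winter systems under star homomorphisms -/
theorem rws_map {A B : Type} [CStarAlgebra A] [CStarAlgebra B] (θ : A →⋆ₐ[ℂ] B)
    (φ : Fin (N + 1) → Fin (N + 1) → A) (v : A) (h : RWS N φ v) :
    RWS N (fun i j => θ (φ i j)) (θ v) := by
  have hsum : (∑ m, θ (φ m m)) = θ (∑ m, φ m m) := (map_sum θ _ _).symm
  have hPC : ∀ x : A, PC x → PC (θ x) := by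
    intro x hx
    refine ⟨hx.1.map θ, ?_⟩
    exact (AlgHom.spectrum_apply_subset ((θ.toAlgHom).restrictScalars ℝ) x).trans hx.2
  refine ⟨?_, ?_, ?_, ?_, ?_, ?_⟩
  · intro i j
    show star (θ (φ i j)) = θ (φ j i)
    rw [← map_star, h.st]
  · intro i j k l
    show θ (φ i j) * θ (φ k l) = if j = k then (∑ m, θ (φ m m)) * θ (φ i l) else 0
    rw [← map_mul, h.mul, hsum]
    split_ifs
    · rw [map_mul]
    · rw [map_zero]
  · show PC (∑ m, θ (φ m m))
    rw [hsum]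
    exact hPC _ h.pc
  · intro i
    exact hPC _ (h.pc0 i)
  · show star (θ v) * θ v = 1 - ∑ m, θ (φ m m)
    rw [← map_star, ← map_mul, h.vv, hsum, map_sub, map_one]
  · show θ (φ 0 0) * θ v = θ v
    rw [← map_mul, h.ve]

end

/-- a Rordam-Winter system in a closed subalgebra -/
theorem rws_sub {N : ℕ} {A : Type} [CStarAlgebra A] (S : StarSubalgebra ℂ A)
    [hcl : IsClosed (S : Set A)]
    (φ : Fin (N + 1) → Fin (N + 1) → A) (v : A) (hφ : ∀ i j, φ i j ∈ S) (hv : v ∈ S)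
    (h : RWS N φ v) :
    RWS (B := S) N (fun i j => (⟨φ i j, hφ i j⟩ : S)) (⟨v, hv⟩ : S) := by
  have hsum : (((∑ m, (⟨φ m m, hφ m m⟩ : S)) : S) : A) = ∑ m, φ m m := by
    rw [AddSubmonoidClass.coe_finsetSum]
  have hPC : ∀ x : S, PC (x : A) → PC x := by
    intro x hx
    have h1 : IsSelfAdjoint x := Subtype.ext hx.1
    refine ⟨h1, ?_⟩
    have h2 := h1.map_spectrum_real S.subtype Subtype.val_injective
    rw [← h2]
    exact hx.2
  refine ⟨?_, ?_, ?_, ?_, ?_, ?_⟩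
  · intro i j
    exact Subtype.ext (h.st i j)
  · intro i j k l
    apply Subtype.ext
    have := h.mul i j k l
    show φ i j * φ k l = _
    rw [this]
    split_ifs
    · show _ = (((∑ m, (⟨φ m m, hφ m m⟩ : S)) : S) : A) * φ i l
      rw [hsum]
    · rfl
  · apply hPC
    show PC (((∑ m, (⟨φ m m, hφ m m⟩ : S)) : S) : A)
    rw [hsum]
    exact h.pc
  · intro i
    exact hPC _ (h.pc0 i)
  · apply Subtype.ext
    show star v * v = 1 - (((∑ m, (⟨φ m m, hφ m m⟩ : S)) : S) : A)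
    rw [hsum]
    exact h.vv
  · exact Subtype.ext h.ve

theorem t_RWAZ (hZGEN : S_ZGEN) (hSW : S_SW) (hDCL : S_DCL) : S_RWAZ := by
  intro Z _ hJS t ht G ε hε
  obtain ⟨n, D, hn, hD, hiso, hcl⟩ := hJS.lim
  -- a good index
  have hdir : Directed (· ≤ ·) D := hD.directed_le
  have hdense : ∀ z : Z, ∃ k, ∃ y ∈ D k, ‖z - y‖ < ε / 2 := by
    intro z
    have hz : z ∈ closure (((⨆ k, D k : StarSubalgebra ℂ Z)) : Set Z) := by
      rw [← StarSubalgebra.topologicalClosure_coe, hcl]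
      exact Set.mem_univ z
    rw [Metric.mem_closure_iff] at hz
    obtain ⟨y, hy, hyd⟩ := hz (ε / 2) (half_pos hε)
    rw [StarSubalgebra.coe_iSup_of_directed hdir] at hy
    obtain ⟨k, hk⟩ := Set.mem_iUnion.mp hy
    exact ⟨k, y, hk, by rwa [dist_eq_norm] at hyd⟩
  choose kk yy hyy1 hyy2 using hdense
  obtain ⟨K, hK⟩ : ∃ K, ∀ g ∈ G, kk g ≤ K := ⟨G.sup kk, fun g hg => Finset.le_sup hg⟩
  have hyK : ∀ g ∈ G, yy g ∈ D K := fun g hg => hD (hK g hg) (hyy1 g)
  obtain ⟨e⟩ := hiso K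
  set N := n K with hN
  obtain ⟨φ, v, hφ, hv, hrws, hspec, hid, hpt⟩ := hZGEN N
  have hclo : IsClosed (ddrop (N + 1) (N + 2) :
    Set C(unitInterval, Matrix (Fin (N + 1) × Fin (N + 2)) (Fin (N + 1) × Fin (N + 2)) ℂ)) :=
    hDCL _ _
  let θ : ddrop (N + 1) (N + 2) →⋆ₐ[ℂ] Z := (D K).subtype.comp (e.symm : ddrop (N + 1) (N + 2) →⋆ₐ[ℂ] D K)
  have hθe : ∀ x : D K, θ (e x) = (x : Z) := by
    intro x
    show (((e.symm (e x)) : D K) : Z) = x
    rw [StarAlgEquiv.symm_apply_apply]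
  have hθinj : Function.Injective θ := by
    intro x y hxy
    have h1 : ((e.symm x : D K) : Z) = ((e.symm y : D K) : Z) := hxy
    exact e.symm.injective (Subtype.ext h1)
  have hsub := rws_sub (ddrop (N + 1) (N + 2)) φ v hφ hv hrws
  have hrw := rws_map θ _ _ hsub
  refine ⟨N, fun i j => θ ⟨φ i j, hφ i j⟩, θ ⟨v, hv⟩, hrw, ?_, ?_⟩
  · refine fsl_of_spectrum t ht _ hrw.pc.1 ?_
    have h1 : (∑ m, θ (⟨φ m m, hφ m m⟩ : ddrop (N + 1) (N + 2)))
      = θ (∑ m, ⟨φ m m, hφ m m⟩) := (map_sum θ _ _).symm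
    have hsa : IsSelfAdjoint (∑ m, (⟨φ m m, hφ m m⟩ : ddrop (N + 1) (N + 2))) := hsub.pc.1
    rw [h1, hsa.map_spectrum_real θ hθinj,
      ← hsa.map_spectrum_real (ddrop (N + 1) (N + 2)).subtype Subtype.val_injective]
    rw [← hspec]
    congr 1
    exact map_sum (ddrop (N + 1) (N + 2)).subtype _ _
  · intro g hg
    obtain ⟨g1, hg1, hg2⟩ := hSW (N + 1) (N + 2) _ hid hpt (e ⟨yy g, hyK g hg⟩ : _)
      (e ⟨yy g, hyK g hg⟩).2 (ε / 2) (half_pos hε)
    have key : ∀ x, x ∈ StarAlgebra.adjoin ℂ (Set.range (fun p : Fin (N + 1) × Fin (N + 1) =>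
        φ p.1 p.2) ∪ {v}) → ∃ h : x ∈ ddrop (N + 1) (N + 2), θ ⟨x, h⟩ ∈
        StarAlgebra.adjoin ℂ (Set.range (fun p : Fin (N + 1) × Fin (N + 1) =>
        θ ⟨φ p.1 p.2, hφ p.1 p.2⟩) ∪ {θ ⟨v, hv⟩}) := by
      intro x hx
      induction hx using StarAlgebra.adjoin_induction with
      | mem x hx =>
        rcases hx with ⟨p, rfl⟩ | hx
        · exact ⟨hφ _ _, StarAlgebra.subset_adjoin ℂ _ (Or.inl ⟨p, rfl⟩)⟩
        · have hx' : x = v := hx
          subst hx'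
          exact ⟨hv, StarAlgebra.subset_adjoin ℂ _ (Or.inr rfl)⟩
      | algebraMap r =>
        refine ⟨algebraMap_mem _ r, ?_⟩
        have : θ ⟨algebraMap ℂ _ r, algebraMap_mem _ r⟩ = algebraMap ℂ Z r := AlgHomClass.commutes θ r
        rw [this]
        exact algebraMap_mem _ r
      | add x y _ _ hx hy =>
        obtain ⟨a, ha⟩ := hx
        obtain ⟨b, hb⟩ := hy
        refine ⟨add_mem a b, ?_⟩
        have : θ ⟨x + y, add_mem a b⟩ = θ ⟨x, a⟩ + θ ⟨y, b⟩ := by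
          rw [← map_add]; rfl
        rw [this]
        exact add_mem ha hb
      | mul x y _ _ hx hy =>
        obtain ⟨a, ha⟩ := hx
        obtain ⟨b, hb⟩ := hy
        refine ⟨mul_mem a b, ?_⟩
        have : θ ⟨x * y, mul_mem a b⟩ = θ ⟨x, a⟩ * θ ⟨y, b⟩ := by
          rw [← map_mul]; rfl
        rw [this]
        exact mul_mem ha hb
      | star x _ hx =>
        obtain ⟨a, ha⟩ := hx
        refine ⟨star_mem a, ?_⟩
        have : θ ⟨star x, star_mem a⟩ = star (θ ⟨x, a⟩) := by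
          rw [← map_star]; rfl
        rw [this]
        exact star_mem ha
    obtain ⟨h1, h2⟩ := key g1 hg1
    refine ⟨θ ⟨g1, h1⟩, h2, ?_⟩
    have h3 : ‖yy g - θ ⟨g1, h1⟩‖ < ε / 2 := by
      have h4 : yy g = θ (e ⟨yy g, hyK g hg⟩) := (hθe ⟨yy g, hyK g hg⟩).symm
      rw [h4, ← map_sub]
      refine lt_of_le_of_lt (NonUnitalStarAlgHom.norm_apply_le θ _) ?_
      exact hg2
    calc ‖g - θ ⟨g1, h1⟩‖ = ‖(g - yy g) + (yy g - θ ⟨g1, h1⟩)‖ := by rw [sub_add_sub_cancel]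
      _ ≤ ‖g - yy g‖ + ‖yy g - θ ⟨g1, h1⟩‖ := norm_add_le _ _
      _ < ε := by linarith [hyy2 g]

end Pool.Agent.H923R2.FZ.T_RWAZ
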