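import Pool.Agent.H923R2.FZ.Fin

/-! task RWAZ2 of helper923's project FZ -/

set_option autoImplicit false

open scoped ComplexConjugate ComplexOrder

noncomputable section

namespace Pool.Agent.H923R2.FZ.T_RWAZ

open Pool.Agent.H923R2.FP Pool.Agent.H923R2.FZ Pool.Agent.H308R2

theorem t_RWAZ (hJSTR : ZS.S_JSTR) (hJFT : ZS.S_JFT) : Pool.Agent.H923R2.FZ.S_RWAZ := by
  intro Z _ τ hJS G ε hε
  obtain ⟨n, D, φ, v, hD, -, -, hdense, hφ, hv, hrws, hgen, hB⟩ := hJSTR Z τ hJS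
  have hft : FTS τ := hJFT Z τ hJS
  have hdense' : ∀ z : Z, ∃ k, ∃ y ∈ D k, ‖z - y‖ < ε / 2 := by
    intro z
    have hz := hdense z
    rw [Metric.mem_closure_iff] at hz
    obtain ⟨y, hy, hyd⟩ := hz (ε / 2) (half_pos hε)
    obtain ⟨k, hk⟩ := Set.mem_iUnion.mp hy
    exact ⟨k, y, hk, by rwa [dist_eq_norm] at hyd⟩
  choose kk yy hyy1 hyy2 using hdense'
  obtain ⟨K, hK⟩ : ∃ K, ∀ g ∈ G, kk g ≤ K := ⟨G.sup kk, fun g hg => Finset.le_sup hg⟩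
  have hyK : ∀ g ∈ G, yy g ∈ D K := fun g hg => hD (hK g hg) (hyy1 g)
  have hid := hB Z τ hft (StarAlgHom.id ℂ Z) Function.injective_id K
  refine ⟨n K, φ K, v K, hrws K, hid.2, ?_⟩
  intro g hg
  have h1 := hgen K (hyK g hg)
  have h2 : yy g ∈ closure ((StarAlgebra.adjoin ℂ ((Set.range
      fun p : Fin (n K + 1) × Fin (n K + 1) => φ K p.1 p.2) ∪ {v K}) : StarSubalgebra ℂ Z) : Set Z) := by
    rw [← StarSubalgebra.topologicalClosure_coe]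
    exact h1
  rw [Metric.mem_closure_iff] at h2
  obtain ⟨y, hy, hyd⟩ := h2 (ε / 2) (half_pos hε)
  rw [dist_eq_norm] at hyd
  refine ⟨y, hy, ?_⟩
  calc ‖g - y‖ = ‖(g - yy g) + (yy g - y)‖ := by rw [sub_add_sub_cancel]
    _ ≤ ‖g - yy g‖ + ‖yy g - y‖ := norm_add_le _ _
    _ < ε := by linarith [hyy2 g]

end Pool.Agent.H923R2.FZ.T_RWAZ
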