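import Pool.Agent.H306R2.RZ.Defs5

set_option autoImplicit false

namespace Pool.Agent.H997R2.RZ5_TRI2

open Finset Filter Topology MeasureTheory Pool.Agent.H306R2.RZ

noncomputable section

theorem js_abs_le (k : ℤ) (l : ℕ) : ‖(js k l : ℂ)‖ ≤ 1 := by
  rw [Complex.norm_real, Real.norm_eq_abs, js]
  rcases jacobiSym.trichotomy k l with h | h | h <;> rw [h] <;> norm_num

theorem TRI2' (FM2 : ∀ (ε : ℝ) (_ : 0 < ε), ∃ (C : ℝ) (A : ℕ), 0 < C ∧ ∀ (K v : ℕ) (t L : ℝ)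
    (w : ℝ → ℝ) (B : ℝ), 1 ≤ K → 1 ≤ v → 1 ≤ L → Wt 1 w → Bd A w B →
    ∑ k ∈ sqZ K, ‖NS k t v L w‖ ^ 2 ≤
      C * (1 + |t|) ^ A * B ^ 2 * (K : ℝ) ^ (1 + ε) * Real.exp (ε * L)) : TRIP (1 / 2) := by
  intro ε hε
  obtain ⟨C, A, hC, h⟩ := FM2 ε hε
  refine ⟨C, A, hC, ?_⟩
  intro K Y v0 v1 t L w1 w2 B1 B2 α hK hY hv0 hv1 hL hw1 hw2 hb1 hb2
  have hB1 : 0 ≤ B1 := le_trans (by positivity) (hb1 0 (Nat.zero_le _) 0)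
  have hB2 : 0 ≤ B2 := le_trans (by positivity) (hb2 0 (Nat.zero_le _) 0)
  have h1 := h K v0 t L w1 B1 hK hv0 hL hw1 hb1
  have h2 := h K v1 t L w2 B2 hK hv1 hL hw2 hb2
  set S := Real.sqrt (∑ l ∈ osf Y, ‖α l‖ ^ 2) with hS
  have hKpos : (0 : ℝ) < K := by exact_mod_cast hK
  have hYpos : (0 : ℝ) < Y := by exact_mod_cast hY
  have hK1 : (1 : ℝ) ≤ K := by exact_mod_cast hK
  have hY1 : (1 : ℝ) ≤ Y := by exact_mod_cast hY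
  have hS0 : 0 ≤ S := Real.sqrt_nonneg _
  -- bound of the mollifier sum
  have hM : ∀ k : ℤ, ‖∑ l ∈ osf Y, α l * (js k l : ℂ)‖ ≤ (Y : ℝ) ^ (1 / 2 : ℝ) * S := by
    intro k
    have a1 : ‖∑ l ∈ osf Y, α l * (js k l : ℂ)‖ ≤ ∑ l ∈ osf Y, 1 * ‖α l‖ := by
      refine (norm_sum_le _ _).trans (Finset.sum_le_sum fun l _ => ?_)
      rw [norm_mul, one_mul]
      calc ‖α l‖ * ‖(js k l : ℂ)‖ ≤ ‖α l‖ * 1 :=
            mul_le_mul_of_nonneg_left (js_abs_le k l) (norm_nonneg _)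
        _ = ‖α l‖ := mul_one _
    have a2 := Finset.sum_mul_sq_le_sq_mul_sq (osf Y) (fun _ => (1 : ℝ)) (fun l => ‖α l‖)
    have a3 : (∑ l ∈ osf Y, (1 : ℝ) ^ 2) ≤ Y := by
      simp only [one_pow, Finset.sum_const, nsmul_eq_mul, mul_one]
      have : (osf Y).card ≤ Y := by
        refine (Finset.card_filter_le _ _).trans ?_
        simp
      exact_mod_cast this
    have a4 : 0 ≤ ∑ l ∈ osf Y, ‖α l‖ ^ 2 := Finset.sum_nonneg fun _ _ => by positivity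
    have a5 : (∑ l ∈ osf Y, 1 * ‖α l‖) ^ 2 ≤ ((Y : ℝ) ^ (1 / 2 : ℝ) * S) ^ 2 := by
      rw [mul_pow, hS, Real.sq_sqrt a4, ← Real.sqrt_eq_rpow, Real.sq_sqrt hYpos.le]
      exact a2.trans (mul_le_mul_of_nonneg_right a3 a4)
    exact a1.trans (abs_le_of_sq_le_sq' a5 (by positivity)).2
  -- Cauchy-Schwarz
  have hcs := Finset.sum_mul_sq_le_sq_mul_sq (sqZ K) (fun k => ‖NS k t v0 L w1‖)
    (fun k => ‖NS k t v1 L w2‖)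
  have hP0 : 0 ≤ C * (1 + |t|) ^ A * B1 * B2 * (K : ℝ) ^ (1 + ε) * Real.exp (ε * L) := by
    positivity
  have hN : ∑ k ∈ sqZ K, ‖NS k t v0 L w1‖ * ‖NS k t v1 L w2‖ ≤
      C * (1 + |t|) ^ A * B1 * B2 * (K : ℝ) ^ (1 + ε) * Real.exp (ε * L) := by
    refine (abs_le_of_sq_le_sq' (hcs.trans ?_) hP0).2
    have hn1 : 0 ≤ ∑ k ∈ sqZ K, ‖NS k t v1 L w2‖ ^ 2 := Finset.sum_nonneg fun _ _ => by positivity
    have hq1 : 0 ≤ C * (1 + |t|) ^ A * B1 ^ 2 * (K : ℝ) ^ (1 + ε) * Real.exp (ε * L) := by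
      positivity
    calc (∑ k ∈ sqZ K, ‖NS k t v0 L w1‖ ^ 2) * ∑ k ∈ sqZ K, ‖NS k t v1 L w2‖ ^ 2
        ≤ (C * (1 + |t|) ^ A * B1 ^ 2 * (K : ℝ) ^ (1 + ε) * Real.exp (ε * L)) *
          (C * (1 + |t|) ^ A * B2 ^ 2 * (K : ℝ) ^ (1 + ε) * Real.exp (ε * L)) :=
          mul_le_mul h1 h2 hn1 hq1
      _ = _ := by ring
  calc ∑ k ∈ sqZ K, ‖NS k t v0 L w1‖ * ‖NS k t v1 L w2‖ * ‖∑ l ∈ osf Y, α l * (js k l : ℂ)‖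
      ≤ ∑ k ∈ sqZ K, ‖NS k t v0 L w1‖ * ‖NS k t v1 L w2‖ * ((Y : ℝ) ^ (1 / 2 : ℝ) * S) :=
        Finset.sum_le_sum fun k _ => mul_le_mul_of_nonneg_left (hM k) (by positivity)
    _ = (∑ k ∈ sqZ K, ‖NS k t v0 L w1‖ * ‖NS k t v1 L w2‖) * ((Y : ℝ) ^ (1 / 2 : ℝ) * S) := by
        rw [Finset.sum_mul]
    _ ≤ (C * (1 + |t|) ^ A * B1 * B2 * (K : ℝ) ^ (1 + ε) * Real.exp (ε * L)) *
          ((Y : ℝ) ^ (1 / 2 : ℝ) * S) := mul_le_mul_of_nonneg_right hN (by positivity)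
    _ = C * (1 + |t|) ^ A * B1 * B2 * (K : ℝ) ^ ε * Real.exp (ε * L) * (K : ℝ) ^ (1 / 2 : ℝ) *
          ((K : ℝ) ^ (1 / 2 : ℝ) * (Y : ℝ) ^ (1 / 2 : ℝ)) * S := by
        have e1 : (K : ℝ) ^ (1 + ε) = (K : ℝ) ^ ε * ((K : ℝ) ^ (1 / 2 : ℝ) * (K : ℝ) ^ (1 / 2 : ℝ)) := by
          rw [← Real.rpow_add hKpos, ← Real.rpow_add hKpos]
          congr 1; ring
        rw [e1]; ring
    _ ≤ C * (1 + |t|) ^ A * B1 * B2 * ((K : ℝ) * Y) ^ ε * Real.exp (ε * L) *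
          (K : ℝ) ^ (1 / 2 : ℝ) * ((K : ℝ) ^ (1 / 2 : ℝ) * (Y : ℝ) ^ (1 / 2 : ℝ) +
            (Y : ℝ) ^ (1 / 2 : ℝ)) * S := by
        have e2 : (K : ℝ) ^ ε ≤ ((K : ℝ) * Y) ^ ε :=
          Real.rpow_le_rpow hKpos.le (by nlinarith) hε.le
        have e3 : (K : ℝ) ^ (1 / 2 : ℝ) * (Y : ℝ) ^ (1 / 2 : ℝ) ≤
            (K : ℝ) ^ (1 / 2 : ℝ) * (Y : ℝ) ^ (1 / 2 : ℝ) + (Y : ℝ) ^ (1 / 2 : ℝ) := by
          have : 0 ≤ (Y : ℝ) ^ (1 / 2 : ℝ) := by positivity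
          linarith
        gcongr

end

end Pool.Agent.H997R2.RZ5_TRI2
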