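import Pool.Agent.Helper829.StzB

set_option autoImplicit false
open Finset

namespace Pool.Agent.H997R2.Stz

open Pool.Agent.Helper829.Stz

variable {ι : Type*} [DecidableEq ι]
variable {V : Type*} [AddCommGroup V] [Module ℝ V] {N : V → ℝ}

/-- Steinitz lemma with constant the dimension -/
theorem gsd [FiniteDimensional ℝ V] (d : ℕ) (hfr : Module.finrank ℝ V = d) (hN : Sn N) (u : ι → V)
    (R : ℝ) (hR : 0 ≤ R) (A : Finset ι) (hu : ∀ i ∈ A, N (u i) ≤ R)
    (hA : ∃ l : ι → ℝ, (∀ i ∈ A, 0 ≤ l i ∧ l i ≤ 1) ∧ ∑ i ∈ A, l i • u i = 0 ∧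
      ∑ i ∈ A, (1 - l i) ≤ d) :
    Ch (fun B => N (∑ i ∈ B, u i) ≤ d * R) A := by
  induction A using Finset.strongInduction with
  | H A ih =>
    by_cases hc : A.card ≤ d
    · apply Ch.of_card_le d A _ hc
      intro B hB hBc
      refine (hN.sum_le B _).trans ?_
      calc ∑ i ∈ B, N (u i) ≤ ∑ i ∈ B, R := Finset.sum_le_sum (fun i hi => hu i (hB hi))
        _ = (B.card : ℝ) * R := by simp
        _ ≤ d * R := by
          apply mul_le_mul_of_nonneg_right _ hR
          exact_mod_cast hBc.le
    · push Not at hc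
      have hc' : (d : ℝ) + 1 ≤ A.card := by exact_mod_cast hc
      obtain ⟨l, hl, hs, hD⟩ := hA
      obtain ⟨t, ht0, ht1, htl, hts, htD⟩ := scale A u 0 l hl (by simpa using hs) d (d + 1) hD
        (by linarith) (by linarith) (by linarith)
      obtain ⟨l', hl', hs', -, hor⟩ := red A (fun i => ((u i, (1 : ℝ)) : V × ℝ)) (fun _ => 0)
        (fun i => t * l i) htl
      rw [Pool.Agent.Helper829.Stz.sum_pair, Pool.Agent.Helper829.Stz.sum_pair, Prod.mk.injEq] at hs'
      have hs'' : ∑ i ∈ A, l' i • u i = 0 := by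
        rw [hs'.1]; simpa using hts
      have hD' : ∑ i ∈ A, (1 - l' i) = d + 1 := by
        rw [D_eq, hs'.2, ← D_eq]; exact htD
      have hzero : ∃ i ∈ A, l' i = 0 := by
        rcases hor with h | h
        · by_contra hno
          push Not at hno
          have h1 := D_lt A l' hl' hno (by rw [hD']; positivity)
          rw [hD'] at h1
          have h2 : Module.finrank ℝ (V × ℝ) = d + 1 := by
            rw [Module.finrank_prod, hfr, Module.finrank_self]
          rw [h2] at h
          have h3 : ((fr A l').card : ℝ) ≤ d + 1 := by exact_mod_cast h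
          linarith
        · exact h
      obtain ⟨i, hi, hi0⟩ := hzero
      have hDe := D_erase A l' i hi
      rw [hD', hi0] at hDe
      have hse := sum_erase_eq A u l' 0 i hi (by simpa using hs'')
      rw [hi0] at hse
      simp only [zero_smul, sub_zero] at hse
      refine Ch.step A i hi ?_ (ih _ (Finset.erase_ssubset hi)
        (fun j hj => hu j (Finset.mem_of_mem_erase hj)) ⟨l', ?_, ?_, ?_⟩)
      · show N (∑ i ∈ A.erase i, u i) ≤ d * R
        rw [hse]
        refine (hN.sum_smul_leR _ _ u R (fun j hj => hu j (Finset.mem_of_mem_erase hj))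
          (fun j hj => by linarith [(hl' j (Finset.mem_of_mem_erase hj)).2])).trans ?_
        rw [hDe]
        apply le_of_eq; ring
      · intro j hj
        exact hl' j (Finset.mem_of_mem_erase hj)
      · have := Finset.add_sum_erase A (fun j => l' j • u j) hi
        rw [hs''] at this
        simpa [hi0] using this
      · rw [hDe]; linarith

/-- **Steinitz lemma.** Vectors `u 0, …, u (n-1)` of `ℝ^m` with entries bounded by `R` and sum zero
can be ordered so that every partial sum has entries bounded by `m R`. -/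
theorem steinitz {n m : ℕ} (u : Fin n → Fin m → ℝ) (R : ℝ) (hR : 0 ≤ R)
    (hu : ∀ i j, |u i j| ≤ R) (hs : ∀ j, ∑ i, u i j = 0) :
    ∃ σ : Equiv.Perm (Fin n), ∀ k ≤ n, ∀ j : Fin m,
      |∑ i ∈ univ.filter (fun i : Fin n => i.val < k), u (σ i) j| ≤ m * R := by
  have hN : Sn (fun x : Fin m → ℝ => ‖x‖) := ⟨norm_add_le, fun c x => by rw [norm_smul, Real.norm_eq_abs]⟩
  have hfr : Module.finrank ℝ (Fin m → ℝ) = m := by simp
  have hsum : ∑ i, u i = 0 := by
    funext j; simpa using hs j
  have hch : Ch (fun B => ‖∑ i ∈ B, u i‖ ≤ m * R) (univ : Finset (Fin n)) := by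
    refine gsd m hfr hN u R hR univ (fun i _ => ?_) ?_
    · exact (pi_norm_le_iff_of_nonneg hR).2 fun j => by simpa using hu i j
    · exact ⟨fun _ => 1, fun _ _ => by norm_num, by simpa using hsum, by simp⟩
  obtain ⟨σ, hσ⟩ := hch.exists_perm
  refine ⟨σ, fun k hk j => ?_⟩
  rcases hk.lt_or_eq with h | h
  · have h1 := hσ k h
    rw [Finset.sum_image (fun a _ b _ hab => σ.injective hab)] at h1
    have h2 := (pi_norm_le_iff_of_nonneg (by positivity)).1 h1 j
    simpa using h2
  · have h3 : univ.filter (fun i : Fin n => i.val < k) = univ := by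
      ext i; simp [h]
    rw [h3]
    have h4 : ∑ i, u (σ i) j = 0 := by
      rw [Equiv.sum_comp σ (fun i => u i j)]; exact hs j
    rw [h4, abs_zero]; positivity

end Pool.Agent.H997R2.Stz
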